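import Mathlib

set_option autoImplicit false

namespace Pool.Agent.IdealIndep

open Cardinal Set

/-- A family `I` of infinite subsets of `ℕ` is ideal independent if for every `A ∈ I` and every
finite `F ⊆ I \ {A}` the set `A \ ⋃ F` is infinite. -/
def IdealIndependent (I : Set (Set ℕ)) : Prop :=
  (∀ A ∈ I, A.Infinite) ∧
    ∀ A ∈ I, ∀ F : Set (Set ℕ), F ⊆ I \ {A} → F.Finite → (A \ ⋃₀ F).Infinite

/-- A maximal ideal independent family: one that is not a proper subset of another ideal
independent family. -/
def MaximalIdealIndependent (I : Set (Set ℕ)) : Prop :=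
  IdealIndependent I ∧ ∀ J : Set (Set ℕ), IdealIndependent J → ¬ I ⊂ J

/-- The least cardinality of an infinite maximal ideal independent family. -/
noncomputable def smm : Cardinal.{0} :=
  sInf {κ | ∃ I : Set (Set ℕ), I.Infinite ∧ MaximalIdealIndependent I ∧ #I = κ}

/-- `D` is a dominating family: every `f : ℕ → ℕ` satisfies `f m ≤ g m` for all but finitely many
`m`, for some `g ∈ D`. -/
def Dominating (D : Set (ℕ → ℕ)) : Prop :=
  ∀ f : ℕ → ℕ, ∃ g ∈ D, {m | ¬ f m ≤ g m}.Finite

/-- The dominating number: the least size of a dominating family. -/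
noncomputable def dominatingNumber : Cardinal.{0} :=
  sInf {κ | ∃ D : Set (ℕ → ℕ), Dominating D ∧ #D = κ}

/-- `B` is a base of the ultrafilter `U`: `B ⊆ U`, and every member of `U` contains, modulo a
finite set, some member of `B`. -/
def IsBase (U : Ultrafilter ℕ) (B : Set (Set ℕ)) : Prop :=
  (∀ Y ∈ B, Y ∈ U) ∧ ∀ X ∈ U, ∃ Y ∈ B, (Y \ X).Finite

/-- The ultrafilter number: the least size of a base of a non-principal ultrafilter on `ℕ` (an
ultrafilter with no finite member). -/
noncomputable def ultrafilterNumber : Cardinal.{0} :=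
  sInf {κ | ∃ U : Ultrafilter ℕ, (∀ X ∈ U, X.Infinite) ∧ ∃ B : Set (Set ℕ), IsBase U B ∧ #B = κ}

end Pool.Agent.IdealIndep
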