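import Mathlib
import Pool.Agent.IdealIndep.Defs

set_option autoImplicit false

namespace Pool.Agent.IdealIndep

open Cardinal Set Filter

/-- choosing an increasing sequence from infinite sets -/
lemma exists_strictMono_mem (T : ℕ → Set ℕ) (hT : ∀ n, (T n).Infinite) :
    ∃ φ : ℕ → ℕ, StrictMono φ ∧ ∀ n, φ n ∈ T n :=
  Filter.extraction_forall_of_frequently (P := fun n k => k ∈ T n)
    (fun n => Nat.frequently_atTop_iff_infinite.mpr (hT n))

/-- A countable family of infinite sets has a common splitting set. -/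
lemma exists_split (T : ℕ → Set ℕ) (hT : ∀ n, (T n).Infinite) :
    ∃ X : Set ℕ, ∀ n, (T n ∩ X).Infinite ∧ (T n \ X).Infinite := by
  obtain ⟨φ, hφ, hm⟩ := exists_strictMono_mem (fun n => T (n / 2).unpair.1) (fun n => hT _)
  refine ⟨range (fun j => φ (2 * j)), fun n => ⟨?_, ?_⟩⟩
  · have hinj : Function.Injective (fun k : ℕ => φ (2 * Nat.pair n k)) := by
      intro a b hab
      have := hφ.injective hab
      have h2 : Nat.pair n a = Nat.pair n b := by omega
      exact (Nat.pair_eq_pair.mp h2).2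
    refine (Set.infinite_range_of_injective hinj).mono ?_
    rintro _ ⟨k, rfl⟩
    refine ⟨?_, ⟨Nat.pair n k, rfl⟩⟩
    have := hm (2 * Nat.pair n k)
    simpa using this
  · have hinj : Function.Injective (fun k : ℕ => φ (2 * Nat.pair n k + 1)) := by
      intro a b hab
      have := hφ.injective hab
      have h2 : Nat.pair n a = Nat.pair n b := by omega
      exact (Nat.pair_eq_pair.mp h2).2
    refine (Set.infinite_range_of_injective hinj).mono ?_
    rintro _ ⟨k, rfl⟩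
    refine ⟨?_, ?_⟩
    · have := hm (2 * Nat.pair n k + 1)
      have h3 : (2 * Nat.pair n k + 1) / 2 = Nat.pair n k := by omega
      rw [h3] at this
      simpa using this
    · rintro ⟨j, hj⟩
      have := hφ.injective hj
      omega

/-- A pseudo-intersection outside the ultrafilter. -/
lemma exists_pseudo (U : Ultrafilter ℕ) (hU : ∀ X ∈ U, X.Infinite) (S : Set (Set ℕ))
    (hS : S.Countable) (hSU : ∀ s ∈ S, s ∈ U) :
    ∃ V : Set ℕ, V.Infinite ∧ V ∉ U ∧ ∀ s ∈ S, (V \ s).Finite := by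
  obtain ⟨g, hg⟩ := (hS.union (countable_singleton (Set.univ : Set ℕ))).exists_eq_range
    ⟨Set.univ, Or.inr rfl⟩
  have hgU : ∀ n, g n ∈ U := by
    intro n
    have : g n ∈ S ∪ {(Set.univ : Set ℕ)} := by rw [hg]; exact ⟨n, rfl⟩
    rcases this with h | h
    · exact hSU _ h
    · rw [mem_singleton_iff.mp h]; exact Filter.univ_mem
  have htU : ∀ n, (⋂ k ∈ Finset.range (n + 1), g k) ∈ U := by
    intro n
    exact (Filter.biInter_finset_mem _).mpr (fun k _ => hgU k)
  obtain ⟨φ, hφ, hm⟩ := exists_strictMono_mem (fun n => ⋂ k ∈ Finset.range (n + 1), g k)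
    (fun n => hU _ (htU n))
  have hmem : ∀ k n, k ≤ n → φ n ∈ g k := by
    intro k n hkn
    have := hm n
    simp only [mem_iInter, Finset.mem_range] at this
    exact this k (by omega)
  have key : ∀ W : Set ℕ, W ⊆ range φ → ∀ s ∈ S, (W \ s).Finite := by
    intro W hW s hs
    have : s ∈ range g := by rw [← hg]; exact Or.inl hs
    obtain ⟨k, rfl⟩ := this
    refine ((Set.finite_Iio k).image φ).subset ?_
    rintro x ⟨hx, hxs⟩
    obtain ⟨n, rfl⟩ := hW hx
    refine ⟨n, ?_, rfl⟩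
    by_contra hn
    exact hxs (hmem k n (by simpa using hn))
  have hinf : ∀ ψ : ℕ → ℕ, Function.Injective ψ → (range (fun n => φ (ψ n))).Infinite :=
    fun ψ hψ => Set.infinite_range_of_injective (hφ.injective.comp hψ)
  by_cases h : range (fun n => φ (2 * n)) ∈ U
  · refine ⟨range (fun n => φ (2 * n + 1)), hinf _ (fun a b (hab : _ = _) => by omega), ?_, key _ ?_⟩
    · intro h'
      have := Filter.inter_mem h h'
      have hne := (hU _ this).nonempty
      obtain ⟨x, ⟨a, ha⟩, ⟨b, hb⟩⟩ := hne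
      have := hφ.injective (ha.trans hb.symm)
      omega
    · rintro _ ⟨n, rfl⟩; exact ⟨_, rfl⟩
  · refine ⟨range (fun n => φ (2 * n)), hinf _ (fun a b (hab : _ = _) => by omega), h, key _ ?_⟩
    rintro _ ⟨n, rfl⟩; exact ⟨_, rfl⟩

section Construction

variable {ι : Type} [LinearOrder ι] [WellFoundedLT ι]

/-- Recursive choice of the almost disjoint sets. -/
lemma exists_family (hι : ∀ a : ι, (Iic a).Countable) (U : Ultrafilter ℕ)
    (hU : ∀ X ∈ U, X.Infinite) (B : ι → Set ℕ) (hB : ∀ a, B a ∈ U) :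
    ∃ V : ι → Set ℕ, (∀ a, (V a).Infinite) ∧ (∀ a b, b < a → (V a \ B b).Finite) ∧
      (∀ a b, a ≠ b → (V a ∩ V b).Finite) := by
  classical
  let pick : Set (Set ℕ) → Set ℕ := fun S =>
    if h : S.Countable ∧ ∀ s ∈ S, s ∈ U then (exists_pseudo U hU S h.1 h.2).choose else ∅
  have hpick : ∀ S : Set (Set ℕ), S.Countable → (∀ s ∈ S, s ∈ U) →
      (pick S).Infinite ∧ pick S ∉ U ∧ ∀ s ∈ S, (pick S \ s).Finite := by
    intro S h1 h2
    have h : S.Countable ∧ ∀ s ∈ S, s ∈ U := ⟨h1, h2⟩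
    have : pick S = (exists_pseudo U hU S h.1 h.2).choose := by
      simp only [pick, dif_pos h]
    rw [this]
    exact (exists_pseudo U hU S h.1 h.2).choose_spec
  let step : (a : ι) → ((b : ι) → b < a → Set ℕ) → Set ℕ := fun a ih =>
    pick ((range fun b : Iio a => B b) ∪ {W | W ∈ U ∧ ∃ (b : ι) (hb : b < a), W = (ih b hb)ᶜ})
  let V : ι → Set ℕ := (wellFounded_lt (α := ι)).fix step
  have hV : ∀ a, V a = pick ((range fun b : Iio a => B b) ∪
      {W | W ∈ U ∧ ∃ (b : ι) (_ : b < a), W = (V b)ᶜ}) := by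
    intro a
    exact (wellFounded_lt (α := ι)).fix_eq step a
  have hcount : ∀ a : ι, (Iio a).Countable := fun a =>
    (hι a).mono (fun x (hx : x < a) => le_of_lt hx)
  have hS1 : ∀ a, ((range fun b : Iio a => B b) ∪
      {W | W ∈ U ∧ ∃ (b : ι) (_ : b < a), W = (V b)ᶜ}).Countable := by
    intro a
    have : Countable (Iio a) := (hcount a).to_subtype
    refine (countable_range _).union ?_
    refine ((hcount a).image (fun b => (V b)ᶜ)).mono ?_
    rintro W ⟨_, b, hb, rfl⟩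
    exact ⟨b, hb, rfl⟩
  have hS2 : ∀ a, ∀ s ∈ ((range fun b : Iio a => B b) ∪
      {W | W ∈ U ∧ ∃ (b : ι) (_ : b < a), W = (V b)ᶜ}), s ∈ U := by
    intro a s hs
    rcases hs with ⟨b, rfl⟩ | ⟨h, _⟩
    · exact hB _
    · exact h
  have hprop : ∀ a, (V a).Infinite ∧ V a ∉ U ∧ ∀ s ∈ ((range fun b : Iio a => B b) ∪
      {W | W ∈ U ∧ ∃ (b : ι) (_ : b < a), W = (V b)ᶜ}), (V a \ s).Finite := by
    intro a
    rw [hV a]
    exact hpick _ (hS1 a) (hS2 a)
  have hdis : ∀ a b, b < a → (V a ∩ V b).Finite := by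
    intro a b hb
    have h1 : (V b)ᶜ ∈ U := Ultrafilter.compl_mem_iff_notMem.mpr (hprop b).2.1
    have h2 := (hprop a).2.2 (V b)ᶜ (Or.inr ⟨h1, b, hb, rfl⟩)
    refine h2.subset ?_
    rintro x ⟨hx1, hx2⟩
    exact ⟨hx1, fun h => h hx2⟩
  refine ⟨V, fun a => (hprop a).1, ?_, ?_⟩
  · intro a b hb
    exact (hprop a).2.2 (B b) (Or.inl ⟨⟨b, hb⟩, rfl⟩)
  · intro a b hab
    rcases lt_or_gt_of_ne hab with h | h
    · have := hdis b a h
      rwa [inter_comm] at this
    · exact hdis a b h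

/-- The heart of the proof: an almost disjoint family of ultrafilters whose intersection has a
base of size at most `ℵ₁`. -/
lemma exists_points (hι : ∀ a : ι, (Iic a).Countable) (hunc : ¬ (Set.univ : Set ι).Countable)
    (U : Ultrafilter ℕ) (hU : ∀ X ∈ U, X.Infinite) (B : ι → Set ℕ) (hB : ∀ a, B a ∈ U)
    (hbase : ∀ X ∈ U, ∃ a, (B a \ X).Finite) (D : Set (ℕ → ℕ)) (hD : Dominating D) :
    ∃ (p : ι → Ultrafilter ℕ) (V : ι → Set ℕ) (Z : ι × ℕ × ι × D × ℕ → Set ℕ),
      (∀ a, ∀ X ∈ p a, X.Infinite) ∧ (∀ a, V a ∈ p a) ∧ (∀ a b, a ≠ b → V b ∉ p a) ∧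
      (∀ k a, Z k ∈ p a) ∧ (∀ X : Set ℕ, (∀ a, X ∈ p a) → ∃ k, Z k ⊆ X) := by
  classical
  obtain ⟨V, hVinf, hVB, hVV⟩ := exists_family hι U hU B hB
  let e : ι → ℕ → ℕ := fun a => Nat.nth (· ∈ V a)
  have hinj : ∀ a, Function.Injective (e a) := fun a => Nat.nth_injective (hVinf a)
  have hrange : ∀ a, range (e a) = V a := fun a => Nat.range_nth_of_infinite (hVinf a)
  let p : ι → Ultrafilter ℕ := fun a => U.map (e a)
  have hp : ∀ a X, X ∈ p a ↔ e a ⁻¹' X ∈ U := fun a X => Ultrafilter.mem_map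
  have hpinf : ∀ a, ∀ X ∈ p a, X.Infinite := by
    intro a X hX hfin
    exact hU _ ((hp a X).mp hX) (hfin.preimage (hinj a).injOn)
  have hVp : ∀ a, V a ∈ p a := by
    intro a
    rw [hp]
    have : e a ⁻¹' V a = Set.univ := by
      rw [← hrange a]; exact preimage_range _
    rw [this]; exact Filter.univ_mem
  have hcof : ∀ a k, Ici k ∈ p a := by
    intro a k
    by_contra h
    have h1 := Ultrafilter.compl_mem_iff_notMem.mpr h
    refine hpinf a _ h1 ?_
    rw [compl_Ici]; exact finite_Iio k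
  have hcofU : ∀ k, Ici k ∈ U := by
    intro k
    by_contra h
    have h1 := Ultrafilter.compl_mem_iff_notMem.mpr h
    refine hU _ h1 ?_
    rw [compl_Ici]; exact finite_Iio k
  have hBp : ∀ a b, b < a → B b ∈ p a := by
    intro a b hb
    by_contra h
    have h1 := Ultrafilter.compl_mem_iff_notMem.mpr h
    have h2 := Filter.inter_mem (hVp a) h1
    refine hpinf a _ h2 ((hVB a b hb).subset ?_)
    rintro x ⟨hx1, hx2⟩
    exact ⟨hx1, hx2⟩
  -- countable subsets of the index type are bounded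
  have hbdd : ∀ c : ℕ → ι, ∃ δ, ∀ n, c n ≤ δ := by
    intro c
    by_contra hcon
    push Not at hcon
    refine hunc ((countable_iUnion fun n => hι (c n)).mono ?_)
    intro x _
    obtain ⟨n, hn⟩ := hcon x
    exact mem_iUnion.mpr ⟨n, le_of_lt hn⟩
  have hgt : ∀ b : ι, ∃ a, b < a := by
    intro b
    by_contra hcon
    push Not at hcon
    exact hunc ((hι b).mono (fun x _ => hcon x))
  -- enumerations of initial segments
  have henum : ∀ b : ι, ∃ r : ℕ → ι, Iic b = range r := fun b =>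
    (hι b).exists_eq_range ⟨b, le_refl b⟩
  choose r hr using henum
  -- bounding a finite set
  have hfinbd : ∀ S : Set ℕ, S.Finite → ∃ k, ∀ x ∈ S, x < k := by
    intro S hS
    obtain ⟨k, hk⟩ := hS.bddAbove
    exact ⟨k + 1, fun x hx => Nat.lt_succ_of_le (hk hx)⟩
  let Z : ι × ℕ × ι × D × ℕ → Set ℕ := fun q =>
    (B q.1 ∩ Ici q.2.1) ∪ ⋃ n : ℕ, e (r q.1 n) ''
      ((⋂ j ∈ Finset.range (max (q.2.2.2.1.1 n) q.2.2.2.2 + 1), B (r q.2.2.1 j)) ∩
        Ici (max (q.2.2.2.1.1 n) q.2.2.2.2))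
  refine ⟨p, V, Z, hpinf, hVp, ?_, ?_, ?_⟩
  · intro a b hab h
    exact hpinf a _ (Filter.inter_mem (hVp a) h) (hVV a b hab)
  · rintro ⟨b, k, δ, h, c⟩ a
    rcases lt_or_ge b a with hba | hab
    · refine Filter.mem_of_superset (Filter.inter_mem (hBp a b hba) (hcof a k)) ?_
      exact subset_union_left
    · have ha : a ∈ range (r b) := by rw [← hr b]; exact hab
      obtain ⟨n, rfl⟩ := ha
      rw [hp]
      have hmem : ((⋂ j ∈ Finset.range (max (h.1 n) c + 1), B (r δ j)) ∩ Ici (max (h.1 n) c)) ∈ U :=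
        Filter.inter_mem ((Filter.biInter_finset_mem _).mpr (fun j _ => hB _)) (hcofU _)
      refine Filter.mem_of_superset hmem ?_
      intro y hy
      exact Or.inr (mem_iUnion.mpr ⟨n, y, hy, rfl⟩)
  · intro X hX
    -- `X ∈ U`
    have hXU : X ∈ U := by
      by_contra h
      have h1 := Ultrafilter.compl_mem_iff_notMem.mpr h
      obtain ⟨b, hb⟩ := hbase _ h1
      obtain ⟨a, ha⟩ := hgt b
      refine hpinf a _ (Filter.inter_mem (hBp a b ha) (hX a)) (hb.subset ?_)
      rintro x ⟨hx1, hx2⟩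
      exact ⟨hx1, fun h => h hx2⟩
    obtain ⟨b, hb⟩ := hbase X hXU
    obtain ⟨k, hk⟩ := hfinbd _ hb
    have hlocal : ∀ n, ∃ c : ι, ∃ m : ℕ, ∀ y ∈ B c, m ≤ y → e (r b n) y ∈ X := by
      intro n
      obtain ⟨c, hc⟩ := hbase _ ((hp (r b n) X).mp (hX _))
      obtain ⟨m, hm⟩ := hfinbd _ hc
      refine ⟨c, m, fun y hy hmy => ?_⟩
      by_contra hcon
      exact absurd (hm y ⟨hy, hcon⟩) (by omega)
    choose c m hcm using hlocal
    obtain ⟨δ, hδ⟩ := hbdd c
    have hj : ∀ n, ∃ j, r δ j = c n := by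
      intro n
      have : c n ∈ range (r δ) := by rw [← hr δ]; exact hδ n
      exact this
    choose j hj using hj
    obtain ⟨h, hhD, hh⟩ := hD (fun n => max (j n) (m n))
    -- a constant which bounds the finitely many exceptional values
    obtain ⟨C, hC⟩ := (hh.image (fun n => max (j n) (m n))).bddAbove
    have hall : ∀ n, max (j n) (m n) ≤ max (h n) C := by
      intro n
      by_cases hn : max (j n) (m n) ≤ h n
      · exact hn.trans (le_max_left _ _)
      · exact (hC ⟨n, hn, rfl⟩).trans (le_max_right _ _)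
    refine ⟨⟨b, k, δ, ⟨h, hhD⟩, C⟩, ?_⟩
    rintro x (⟨hx1, hx2⟩ | hx)
    · by_contra hcon
      have := hk x ⟨hx1, hcon⟩
      exact absurd hx2 (by simpa using this)
    · obtain ⟨n, y, ⟨hy1, hy2⟩, rfl⟩ := mem_iUnion.mp hx
      have h1 : j n ≤ max (h n) C := (le_max_left _ _).trans (hall n)
      have h2 : m n ≤ max (h n) C := (le_max_right _ _).trans (hall n)
      refine hcm n y ?_ (h2.trans hy2)
      simp only [mem_iInter, Finset.mem_range] at hy1
      have := hy1 (j n) (Nat.lt_succ_of_le h1)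
      rwa [hj n] at this

end Construction

/-- Upper bound. -/
lemma exists_maximal (hd : dominatingNumber = ℵ₁) (hu : ultrafilterNumber = ℵ₁) :
    ∃ I : Set (Set ℕ), I.Infinite ∧ MaximalIdealIndependent I ∧ #I = ℵ₁ := by
  classical
  -- unpack the hypotheses
  have hpos : (0 : Cardinal.{0}) < ℵ₁ := Cardinal.aleph_pos 1
  have hdne : {κ : Cardinal.{0} | ∃ D : Set (ℕ → ℕ), Dominating D ∧ #D = κ}.Nonempty := by
    by_contra h
    rw [not_nonempty_iff_eq_empty] at h
    rw [dominatingNumber, h, Cardinal.sInf_empty] at hd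
    exact absurd hd hpos.ne
  have hune : {κ : Cardinal.{0} | ∃ U : Ultrafilter ℕ, (∀ X ∈ U, X.Infinite) ∧
      ∃ B : Set (Set ℕ), IsBase U B ∧ #B = κ}.Nonempty := by
    by_contra h
    rw [not_nonempty_iff_eq_empty] at h
    rw [ultrafilterNumber, h, Cardinal.sInf_empty] at hu
    exact absurd hu hpos.ne
  obtain ⟨D, hD, hDc⟩ := csInf_mem hdne
  obtain ⟨U, hU, B₀, hB₀, hB₀c⟩ := csInf_mem hune
  change #D = dominatingNumber at hDc
  change #B₀ = ultrafilterNumber at hB₀c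
  rw [hd] at hDc
  rw [hu] at hB₀c
  -- the index type
  let ι : Type := (ℵ₁ : Cardinal.{0}).ord.ToType
  have hιc : #ι = ℵ₁ := Cardinal.mk_ord_toType _
  have hι : ∀ a : ι, (Iic a).Countable := by
    intro a
    have h1 : #(Iio a) < ℵ₁ := Cardinal.mk_Iio_toType_ord_lt a
    have h2 : (Iio a).Countable := by
      have h4 : (ℵ₁ : Cardinal.{0}) = Order.succ ℵ₀ := Cardinal.succ_aleph0.symm
      exact Cardinal.le_aleph0_iff_set_countable.mp (Order.lt_succ_iff.mp (h1.trans_eq h4))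
    have h3 : Iic a = Iio a ∪ {a} := by
      ext x; simp [le_iff_lt_or_eq]
    rw [h3]
    exact h2.union (countable_singleton a)
  have hunc : ¬ (Set.univ : Set ι).Countable := by
    intro h
    have h1 : #(Set.univ : Set ι) ≤ ℵ₀ := Cardinal.le_aleph0_iff_set_countable.mpr h
    rw [Cardinal.mk_univ, hιc] at h1
    exact absurd h1 (not_le.mpr Cardinal.aleph0_lt_aleph_one)
  obtain ⟨f⟩ : Nonempty (ι ≃ B₀) := by
    rw [← Cardinal.eq, hιc, hB₀c]
  obtain ⟨p, V, Z, hpinf, hVp, hVp', hZp, hZb⟩ := exists_points hι hunc U hU (fun a => (f a : Set ℕ))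
    (fun a => hB₀.1 _ (f a).2) (fun X hX => by
      obtain ⟨Y, hY, hfin⟩ := hB₀.2 X hX
      exact ⟨f.symm ⟨Y, hY⟩, by simpa using hfin⟩) D hD
  -- enumerate the base, every member twice
  have hι0 : ℵ₀ ≤ (ℵ₁ : Cardinal.{0}) := Cardinal.aleph0_lt_aleph_one.le
  have hcard : #((ι × ℕ × ι × D × ℕ) × Bool) ≤ #ι := by
    rw [hιc]
    have hN : #ℕ ≤ (ℵ₁ : Cardinal.{0}) := by rw [Cardinal.mk_nat]; exact hι0
    have hBl : #Bool ≤ (ℵ₁ : Cardinal.{0}) := (Cardinal.mk_le_aleph0 (α := Bool)).trans hι0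
    simp only [Cardinal.mk_prod, Cardinal.lift_uzero]
    simp only [hιc, hDc]
    refine Cardinal.mul_le_of_le hι0 ?_ hBl
    refine Cardinal.mul_le_of_le hι0 le_rfl ?_
    refine Cardinal.mul_le_of_le hι0 hN ?_
    refine Cardinal.mul_le_of_le hι0 le_rfl ?_
    exact Cardinal.mul_le_of_le hι0 le_rfl hN
  have hne : Nonempty ((ι × ℕ × ι × D × ℕ) × Bool) := by
    obtain ⟨k, -⟩ := hZb Set.univ (fun a => Filter.univ_mem)
    exact ⟨(k, true)⟩
  obtain ⟨g, hg⟩ : ∃ g : ι → (ι × ℕ × ι × D × ℕ) × Bool, Function.Surjective g := by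
    rw [Function.exists_surjective_iff]
    exact ⟨⟨fun _ => hne.some⟩, Cardinal.le_def _ _ |>.mp hcard⟩
  let W : ι → Set ℕ := fun a => Z (g a).1
  have hWp : ∀ a b, W a ∈ p b := fun a b => hZp _ _
  have hWb : ∀ X : Set ℕ, (∀ a, X ∈ p a) → ∀ b : ι, ∃ a, a ≠ b ∧ W a ⊆ X := by
    intro X hX b
    obtain ⟨k, hk⟩ := hZb X hX
    obtain ⟨a1, ha1⟩ := hg (k, true)
    obtain ⟨a2, ha2⟩ := hg (k, false)
    by_cases h : a1 = b
    · refine ⟨a2, ?_, ?_⟩
      · rintro rfl
        rw [h, ha2] at ha1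
        simp at ha1
      · simp only [W, ha2]; exact hk
    · refine ⟨a1, h, ?_⟩
      simp only [W, ha1]; exact hk
  -- the family
  let A : ι → Set ℕ := fun a => V a ∪ (W a)ᶜ
  have hA1 : ∀ a, A a ∈ p a := fun a => Filter.mem_of_superset (hVp a) subset_union_left
  have hA2 : ∀ a b, a ≠ b → A b ∉ p a := by
    intro a b hab h
    rcases Ultrafilter.union_mem_iff.mp h with h | h
    · exact hVp' a b hab h
    · exact (Ultrafilter.compl_mem_iff_notMem.mp h) (hWp b a)
  have hAinj : Function.Injective A := by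
    intro a b hab
    by_contra hne
    exact hA2 a b hne (hab ▸ hA1 a)
  have hind : IdealIndependent (range A) := by
    refine ⟨?_, ?_⟩
    · rintro _ ⟨a, rfl⟩
      exact hpinf a _ (hA1 a)
    · rintro _ ⟨a, rfl⟩ F hF hfin
      refine hpinf a _ ?_
      rw [Set.sdiff_eq]
      refine Filter.inter_mem (hA1 a) ?_
      refine Ultrafilter.compl_mem_iff_notMem.mpr ?_
      intro h
      obtain ⟨t, htF, ht⟩ := (Ultrafilter.finite_sUnion_mem_iff hfin).mp h
      obtain ⟨⟨b, rfl⟩, hb⟩ := hF htF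
      refine hA2 a b ?_ ht
      rintro rfl
      exact hb rfl
  have hmkA : #(range A) = ℵ₁ := by
    rw [Cardinal.mk_range_eq A hAinj, hιc]
  refine ⟨range A, ?_, ⟨hind, ?_⟩, hmkA⟩
  · rw [← Set.infinite_coe_iff, Cardinal.infinite_iff, hmkA]
    exact hι0
  · rintro J hJ ⟨hsub, hnot⟩
    obtain ⟨X, hXJ, hXA⟩ := Set.not_subset.mp hnot
    by_cases hX : ∃ a, X ∈ p a
    · obtain ⟨a, ha⟩ := hX
      have h1 : ∀ b, (A a \ X)ᶜ ∈ p b := by
        intro b
        refine Ultrafilter.compl_mem_iff_notMem.mpr ?_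
        intro h
        by_cases hab : b = a
        · subst hab
          have := Filter.inter_mem h ha
          have hne := (hpinf _ _ this).nonempty
          obtain ⟨x, hx1, hx2⟩ := hne
          exact hx1.2 hx2
        · exact hA2 b a hab (Filter.mem_of_superset h sdiff_subset)
      obtain ⟨b, hba, hb⟩ := hWb _ h1 a
      have h2 := hJ.2 (A a) (hsub ⟨a, rfl⟩) {X, A b} ?_ (by simp)
      · refine h2 ?_
        have : A a \ ⋃₀ {X, A b} = ∅ := by
          rw [sUnion_pair, eq_empty_iff_forall_notMem]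
          rintro x ⟨hx, hx'⟩
          by_cases hxX : x ∈ X
          · exact hx' (Or.inl hxX)
          · refine hx' (Or.inr (Or.inr ?_))
            intro hxW
            exact hb hxW ⟨hx, hxX⟩
        rw [this]; exact finite_empty
      · rintro Y (rfl | rfl)
        · exact ⟨hXJ, fun h => hXA ⟨a, (mem_singleton_iff.mp h).symm⟩⟩
        · exact ⟨hsub ⟨b, rfl⟩, fun h => hba (hAinj (mem_singleton_iff.mp h))⟩
    · push Not at hX
      have h1 : ∀ b, Xᶜ ∈ p b := fun b => Ultrafilter.compl_mem_iff_notMem.mpr (hX b)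
      obtain ⟨a0⟩ : Nonempty ι := by
        rw [← Cardinal.mk_ne_zero_iff, hιc]; exact hpos.ne'
      obtain ⟨b, -, hb⟩ := hWb _ h1 a0
      have h2 := hJ.2 X hXJ {A b} ?_ (finite_singleton _)
      · refine h2 ?_
        have : X \ ⋃₀ {A b} = ∅ := by
          rw [sUnion_singleton, eq_empty_iff_forall_notMem]
          rintro x ⟨hx, hx'⟩
          refine hx' (Or.inr ?_)
          intro hxW
          exact hb hxW hx
        rw [this]; exact finite_empty
      · rintro Y rfl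
        exact ⟨hsub ⟨b, rfl⟩, fun h => hXA ⟨b, mem_singleton_iff.mp h⟩⟩

/-- Lower bound: a countably infinite ideal independent family is not maximal. -/
lemma not_countable (I : Set (Set ℕ)) (hinf : I.Infinite) (hI : MaximalIdealIndependent I) :
    ¬ I.Countable := by
  intro hc
  have : Countable I := hc.to_subtype
  have : Infinite I := hinf.to_subtype
  obtain ⟨f⟩ : Nonempty (ℕ ≃ I) := by
    obtain ⟨d⟩ := nonempty_denumerable I
    exact ⟨(Denumerable.eqv I).symm⟩
  let A : ℕ → Set ℕ := fun n => (f n : Set ℕ)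
  have hAI : ∀ n, A n ∈ I := fun n => (f n).2
  have hAinj : Function.Injective A := fun a b h => f.injective (Subtype.ext h)
  have hsurj : ∀ Y ∈ I, ∃ n, A n = Y := fun Y hY => ⟨f.symm ⟨Y, hY⟩, by simp [A]⟩
  let T : ℕ → Set ℕ := fun q =>
    A q.unpair.1 \ ⋃₀ (A '' {m | m ≤ q.unpair.2 ∧ m ≠ q.unpair.1})
  have hT : ∀ q, (T q).Infinite := by
    intro q
    refine hI.1.2 _ (hAI _) _ ?_ ?_
    · rintro _ ⟨m, ⟨_, hm⟩, rfl⟩
      exact ⟨hAI m, fun h => hm (hAinj (mem_singleton_iff.mp h))⟩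
    · exact ((finite_Iic q.unpair.2).subset (fun m hm => hm.1)).image A
  obtain ⟨X, hX⟩ := exists_split T hT
  have hT' : ∀ n k, T (Nat.pair n k) = A n \ ⋃₀ (A '' {m | m ≤ k ∧ m ≠ n}) := by
    intro n k; simp [T]
  -- bounding finite subfamilies of `I`
  have hbd : ∀ F : Set (Set ℕ), F ⊆ I → F.Finite → ∃ k, ∀ Y ∈ F, ∃ m ≤ k, A m = Y := by
    intro F hF hfin
    choose! g hg using hsurj
    obtain ⟨k, hk⟩ := (hfin.image g).bddAbove
    exact ⟨k, fun Y hY => ⟨g Y, hk ⟨Y, hY, rfl⟩, hg Y (hF hY)⟩⟩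
  have hXI : X ∉ I := by
    intro h
    obtain ⟨n, hn⟩ := hsurj X h
    have := (hX (Nat.pair n 0)).2
    refine this ?_
    rw [hT', hn]
    have : (X \ ⋃₀ (A '' {m | m ≤ 0 ∧ m ≠ n})) \ X = ∅ := by
      rw [eq_empty_iff_forall_notMem]
      rintro x ⟨⟨hx, _⟩, hx'⟩
      exact hx' hx
    rw [this]; exact finite_empty
  refine hI.2 (insert X I) ⟨?_, ?_⟩ (ssubset_insert hXI)
  · rintro Y (rfl | hY)
    · exact (hX 0).1.mono inter_subset_right
    · exact hI.1.1 Y hY
  · rintro Y (rfl | hY) F hF hfin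
    · have hFI : F ⊆ I := by
        intro Z hZ
        rcases (hF hZ).1 with h | h
        · exact absurd h (hF hZ).2
        · exact h
      obtain ⟨k, hk⟩ := hbd F hFI hfin
      refine (hX (Nat.pair (k + 1) k)).1.mono ?_
      rw [hT']
      rintro x ⟨⟨_, hx1⟩, hx2⟩
      refine ⟨hx2, ?_⟩
      rintro ⟨Z, hZ, hxZ⟩
      obtain ⟨m, hm, rfl⟩ := hk Z hZ
      exact hx1 ⟨A m, ⟨m, ⟨hm, by omega⟩, rfl⟩, hxZ⟩
    · obtain ⟨n, rfl⟩ := hsurj Y hY
      have hfin' : (F \ {X}).Finite := hfin.subset sdiff_subset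
      have hFI : F \ {X} ⊆ I := by
        rintro Z ⟨hZ, hZX⟩
        rcases (hF hZ).1 with h | h
        · exact absurd h hZX
        · exact h
      obtain ⟨k, hk⟩ := hbd _ hFI hfin'
      refine (hX (Nat.pair n k)).2.mono ?_
      rw [hT']
      rintro x ⟨⟨hxn, hx1⟩, hx2⟩
      refine ⟨hxn, ?_⟩
      rintro ⟨Z, hZ, hxZ⟩
      by_cases hZX : Z = X
      · subst hZX; exact hx2 hxZ
      · obtain ⟨m, hm, rfl⟩ := hk Z ⟨hZ, hZX⟩
        refine hx1 ⟨A m, ⟨m, ⟨hm, ?_⟩, rfl⟩, hxZ⟩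
        rintro rfl
        exact (hF hZ).2 rfl

theorem smm_eq (hd : dominatingNumber = ℵ₁) (hu : ultrafilterNumber = ℵ₁) : smm = ℵ₁ := by
  obtain ⟨I, hinf, hmax, hc⟩ := exists_maximal hd hu
  refine le_antisymm (csInf_le' ⟨I, hinf, hmax, hc⟩) ?_
  refine le_csInf ⟨_, I, hinf, hmax, hc⟩ ?_
  rintro κ ⟨J, hJinf, hJ, rfl⟩
  have h1 := not_countable J hJinf hJ
  rw [← Cardinal.succ_aleph0]
  refine Order.succ_le_of_lt ?_
  by_contra h
  exact h1 (Cardinal.le_aleph0_iff_set_countable.mp (not_lt.mp h))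

end Pool.Agent.IdealIndep
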